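import Mathlib

/-!
# Two spaces of analytic functions in the unit disc

Definitions only. Functions are maps from the complex plane to itself of which only the values on
the open unit disc matter.
-/

set_option autoImplicit false

namespace Pool.Agent.Helper12.OA

open Finset

/-- `φ` is analytic in the open unit disc and has the Taylor coefficients `a`. -/
def HasTaylor (a : ℕ → ℂ) (φ : ℂ → ℂ) : Prop :=
  ∀ z : ℂ, ‖z‖ < 1 → HasSum (fun n => a n * z ^ n) (φ z)

/-! ### The space `𝓛` -/

/-- The norm of the matrix `γ` in the injective tensor product of `ℓ¹` with itself: the supremum of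
`|∑ γ_{mk} x_m y_k|` over all sequences bounded by `1` (and all finite square truncations of the
sum; since `x`, `y` may vanish off finite sets this covers all finitely supported `x`, `y`). -/
noncomputable def injNorm (γ : ℕ → ℕ → ℂ) : ENNReal :=
  ⨆ (N : ℕ) (x : ℕ → ℂ) (y : ℕ → ℂ) (_ : ∀ m, ‖x m‖ ≤ 1) (_ : ∀ k, ‖y k‖ ≤ 1),
    ENNReal.ofReal ‖∑ m ∈ range N, ∑ k ∈ range N, γ m k * x m * y k‖

/-- The norm of `𝓛`: the infimum of the injective norms of the matrices `γ` for which
`∑_{m+k=n} γ_{mk}` is the `n`-th Taylor coefficient of `φ`; `φ` belongs to `𝓛` iff it is finite. -/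
noncomputable def normL (φ : ℂ → ℂ) : ENNReal :=
  ⨅ (γ : ℕ → ℕ → ℂ) (_ : HasTaylor (fun n => ∑ p ∈ antidiagonal n, γ p.1 p.2) φ), injNorm γ

/-! ### The projective tensor product of `VMO_A` and `H¹` -/

/-- The norm of `VMO_A`: the infimum of the maximum norms of the continuous functions `F` on the
circle whose Fourier coefficients are, for `n ≥ 0`, the Taylor coefficients of `f`. -/
noncomputable def normVMO (f : ℂ → ℂ) : ENNReal :=
  ⨅ (F : C(UnitAddCircle, ℂ)) (_ : HasTaylor (fun n => fourierCoeff F n) f), ENNReal.ofReal ‖F‖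

/-- The norm of the Hardy space `H¹`: the supremum of the means of `|g|` on the circles of radius
`r < 1` about the origin. -/
noncomputable def normH1 (g : ℂ → ℂ) : ENNReal :=
  ⨆ (r : ℝ) (_ : 0 ≤ r) (_ : r < 1),
    ENNReal.ofReal (∫ t in (0 : ℝ)..1, ‖g (r * Complex.exp (2 * Real.pi * t * Complex.I))‖)

/-- `φ = ∑ f_m * g_m`, where `*` is the convolution (the Taylor coefficients are multiplied) and
all functions are analytic in the disc. -/
def IsConvSum (f g : ℕ → ℂ → ℂ) (φ : ℂ → ℂ) : Prop :=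
  ∃ (a b : ℕ → ℕ → ℂ) (c : ℕ → ℂ),
    (∀ m, HasTaylor (a m) (f m)) ∧ (∀ m, HasTaylor (b m) (g m)) ∧ HasTaylor c φ ∧
      ∀ n, HasSum (fun m => a m n * b m n) (c n)

/-- The norm of the projective tensor product of `VMO_A` and `H¹`: the infimum of
`∑ ‖f_m‖ ‖g_m‖` over all representations `φ = ∑ f_m * g_m`. -/
noncomputable def normVH (φ : ℂ → ℂ) : ENNReal :=
  ⨅ (f : ℕ → ℂ → ℂ) (g : ℕ → ℂ → ℂ) (_ : IsConvSum f g φ), ∑' m, normVMO (f m) * normH1 (g m)

/-! ### Operator algebras -/

/-- The space of the functions with finite norm `N`, with pointwise multiplication, is isomorphic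
to a subalgebra of the algebra of the bounded operators on some Hilbert space `H`: there is a
linear multiplicative map `ρ` into the operators on `H` such that the norm of `ρ φ` and `N φ` are
equivalent. (The product of two functions of the space is only considered if it is in the space.) -/
def IsOperatorAlgebra.{u} (N : (ℂ → ℂ) → ENNReal) : Prop :=
  ∃ (H : Type u) (_ : NormedAddCommGroup H) (_ : InnerProductSpace ℂ H) (_ : CompleteSpace H)
    (ρ : (ℂ → ℂ) → (H →L[ℂ] H)) (c C : ℝ), 0 < c ∧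
    (∀ φ ψ, N φ < ⊤ → N ψ < ⊤ → ρ (φ + ψ) = ρ φ + ρ ψ) ∧
    (∀ (s : ℂ) (φ), N φ < ⊤ → ρ (s • φ) = s • ρ φ) ∧
    (∀ φ ψ, N φ < ⊤ → N ψ < ⊤ → N (φ * ψ) < ⊤ → ρ (φ * ψ) = ρ φ * ρ ψ) ∧
    ∀ φ, N φ < ⊤ → ENNReal.ofReal c * N φ ≤ ENNReal.ofReal ‖ρ φ‖ ∧
      ENNReal.ofReal ‖ρ φ‖ ≤ ENNReal.ofReal C * N φ

end Pool.Agent.Helper12.OA
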