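import Pool.Agent.Helper12.OA.Defs
import Pool.Agent.Helper47.Grothendieck

/-!
# Frames

The polynomials `φ_n` and the functionals `ψ_n`, and the statements of the pieces.
-/

set_option autoImplicit false

namespace Pool.Agent.Helper12.OA

open Finset Pool.Agent.Helper47.Grothendieck

/-- The root of unity. -/
noncomputable def w (n : ℕ) : ℂ := Complex.exp (2 * Real.pi * Complex.I / n)

/-- The lacunary exponents. -/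
def aa (n j : ℕ) : ℕ := 8 * n * 4 ^ j

/-- The number of the pairs `i, l < n` with `aa n j + i + l = u`. -/
def F (n j u : ℕ) : ℕ :=
  ((range n ×ˢ range n).filter fun p : ℕ × ℕ => aa n j + p.1 + p.2 = u).card

/-- The functional. -/
noncomputable def psi (n u : ℕ) : ℂ :=
  (((n : ℝ) ^ (-(3 / 2) : ℝ) : ℝ) : ℂ) * ∑ j ∈ range n, w n ^ (j * u) * (F n j u : ℂ)

/-- The polynomial `∑_j z^(a_j) D_j(z)^2`, where `D_j(z) = ∑_(i<n) w^(-ij) z^i`. -/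
noncomputable def poly (n : ℕ) : Polynomial ℂ :=
  ∑ j ∈ range n, Polynomial.X ^ (aa n j) *
    (∑ i ∈ range n, Polynomial.C ((w n)⁻¹ ^ (i * j)) * Polynomial.X ^ i) ^ 2

/-- (PSI) The Hankel matrix of `psi` is a Schur multiplier of norm at most `3`. -/
def S_PSI : Prop := ∀ (n N : ℕ), 1 ≤ n → ∀ (γ : Fin N → Fin N → ℂ) (K : ℝ), HB γ K →
  ‖∑ m : Fin N, ∑ k : Fin N, γ m k * psi n (m.val + k.val)‖ ≤ 3 * K

/-- (PAIR) -/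
def S_PAIR : Prop := ∀ n : ℕ, 1 ≤ n → ∀ B : ℕ, aa n n ≤ B →
  (n : ℝ) ^ (5 / 2 : ℝ) / 2 ≤ ‖∑ u ∈ range B, (poly n).coeff u * psi n u‖

/-- `psi` is supported in a finite interval. -/
def S_SUP : Prop := ∀ n u : ℕ, 1 ≤ n → aa n n ≤ u → psi n u = 0

universe u

/-- (OPS) -/
def S_OPS : Prop := ∀ (H : Type u) [NormedAddCommGroup H] [InnerProductSpace ℂ H]
  [CompleteSpace H] (T : H →L[ℂ] H) (M : ℝ), (∀ k : ℕ, ‖T ^ k‖ ≤ M) → ∀ n : ℕ, 1 ≤ n →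
    ‖Polynomial.aeval T (poly n)‖ ≤ M ^ 3 * (n : ℝ) ^ 2

/-- The mean of `|g|` on the unit circle. -/
noncomputable def L1 (g : ℂ → ℂ) : ℝ :=
  ∫ t in (0 : ℝ)..1, ‖g (Complex.exp (2 * Real.pi * t * Complex.I))‖

/-- (RIESZ) A polynomial without zeros on the unit circle is the product of two functions in `H²`
with `‖u‖² = ‖v‖² = ‖g‖₁`. -/
def S_RIESZ : Prop := ∀ g : Polynomial ℂ, (∀ z : ℂ, ‖z‖ = 1 → g.eval z ≠ 0) →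
  ∃ u v : ℕ → ℂ, (∀ n, ∑ p ∈ antidiagonal n, u p.1 * v p.2 = g.coeff n) ∧
    (∀ N, ∑ m ∈ range N, ‖u m‖ ^ 2 ≤ L1 fun z => g.eval z) ∧
    ∀ N, ∑ m ∈ range N, ‖v m‖ ^ 2 ≤ L1 fun z => g.eval z

/-- (HANKEL) -/
def S_HANKEL : Prop := ∀ (f : C(UnitAddCircle, ℂ)) (N : ℕ) (u v : Fin N → ℂ) (A : ℝ), 0 ≤ A →
  (∑ m, ‖u m‖ ^ 2 ≤ A) → (∑ m, ‖v m‖ ^ 2 ≤ A) →
  HB (fun m k : Fin N => fourierCoeff f ((m.val + k.val : ℕ) : ℤ) * (u m * v k)) (‖f‖ * A)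

/-- (VHP) The bound for the functional on `VMO_A` and polynomials. -/
def S_VHP : Prop := ∀ (n : ℕ), 1 ≤ n → ∀ (f : C(UnitAddCircle, ℂ)) (g : Polynomial ℂ) (B : ℕ),
  aa n n ≤ B →
  ‖∑ x ∈ range B, psi n x * (fourierCoeff f (x : ℤ) * g.coeff x)‖ ≤
    3 * ‖f‖ * L1 fun z => g.eval z

/-- (VH1) The same for functions in `H¹`. -/
def S_VH1 : Prop := ∀ (n : ℕ), 1 ≤ n → ∀ (f : C(UnitAddCircle, ℂ)) (g : ℂ → ℂ) (b : ℕ → ℂ)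
  (B : ℕ), aa n n ≤ B → HasTaylor b g → ∀ A : ℝ, 0 ≤ A → normH1 g ≤ ENNReal.ofReal A →
  ‖∑ x ∈ range B, psi n x * (fourierCoeff f (x : ℤ) * b x)‖ ≤ 3 * ‖f‖ * A

/-- (L) -/
def S_L : Prop := ∀ n : ℕ, 1 ≤ n →
  ENNReal.ofReal ((n : ℝ) ^ (5 / 2 : ℝ) / 576) ≤ normL fun z => (poly n).eval z

/-- (VH) -/
def S_VH : Prop := ∀ n : ℕ, 1 ≤ n →
  ENNReal.ofReal ((n : ℝ) ^ (5 / 2 : ℝ) / 6) ≤ normVH fun z => (poly n).eval z

/-- (UP) Upper bounds for polynomials. -/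
def S_UPL : Prop := ∀ p : Polynomial ℂ,
  normL (fun z => p.eval z) ≤ ∑ i ∈ p.support, ENNReal.ofReal ‖p.coeff i‖

def S_UPVH : Prop := ∀ p : Polynomial ℂ,
  normVH (fun z => p.eval z) ≤ ∑ i ∈ p.support, ENNReal.ofReal ‖p.coeff i‖

/-- (REP) -/
def S_REP : Prop := ∀ (N : (ℂ → ℂ) → ENNReal) (K : ℝ), 0 < K →
  (∀ p : Polynomial ℂ, N (fun z => p.eval z) ≤ ∑ i ∈ p.support, ENNReal.ofReal ‖p.coeff i‖) →
  (∀ n : ℕ, 1 ≤ n → ENNReal.ofReal ((n : ℝ) ^ (5 / 2 : ℝ) / K) ≤ N fun z => (poly n).eval z) →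
  ¬ IsOperatorAlgebra.{u} N

end Pool.Agent.Helper12.OA
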